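import Pool.Agent.Y395.GX.Stm

/-!
# Project GX: disjoint local events
-/

set_option autoImplicit false

namespace Pool.Agent.Y918.GX

open Finset Pool.Agent.Y395.GX

theorem Ex_mono {α : Type} {p : ℝ} (h0 : 0 ≤ p) (h1 : p ≤ 1) (E : Finset α)
    {f g : Finset α → ℝ} (h : ∀ F ⊆ E, f F ≤ g F) : Ex p E f ≤ Ex p E g := by
  unfold Ex
  refine sum_le_sum fun F hF => ?_
  exact mul_le_mul_of_nonneg_left (h F (mem_powerset.1 hF))
    (mul_nonneg (pow_nonneg h0 _) (pow_nonneg (by linarith) _))

open scoped Classical in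
theorem Ex_one {α : Type} {p : ℝ} (hT : STot) (S t : Finset α) (ht : t ⊆ S) (c : ℝ) :
    Ex p S (fun F => c - if F = t then c else 0) =
      c - p ^ t.card * (1 - p) ^ (S.card - t.card) * c := by
  have h1 : Ex p S (fun F => c - if F = t then c else 0) =
      Ex p S (fun _ => c) - Ex p S (fun F => if F = t then c else 0) := by
    unfold Ex
    rw [← sum_sub_distrib]
    exact sum_congr rfl fun F _ => by ring
  rw [h1, hT α p S c]
  congr 1
  unfold Ex
  rw [sum_eq_single_of_mem t (mem_powerset.2 ht)]
  · simp only [if_true]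
  · intro F _ hF
    simp only [if_neg hF, mul_zero]

theorem main (hF : SFub) (hT : STot) : SStar := by
  classical
  intro α ι p π hp0 hp1 hπ N
  induction N using Finset.induction_on with
  | empty =>
    intro S t E _ _ _ _
    rw [card_empty, pow_zero]
    refine (Ex_mono hp0 hp1 E (g := fun _ => 1) fun F _ => ?_).trans (hT α p E 1).le
    split_ifs
    · exact le_rfl
    · exact zero_le_one
  | insert w N' hw ih =>
    intro S t E hS ht hd hπt
    have hwI : w ∈ insert w N' := mem_insert_self w N'
    have hSw := hS w hwI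
    have htw := ht w hwI
    have hπ1 : π ≤ 1 := by
      refine (hπt w hwI).trans ?_
      exact mul_le_one₀ (pow_le_one₀ hp0 hp1) (pow_nonneg (by linarith) _)
        (pow_le_one₀ (by linarith) (by linarith))
    have hdw : ∀ w' ∈ N', Disjoint (S w) (S w') := fun w' hw' =>
      hd w hwI w' (mem_insert_of_mem hw') (fun h => hw (h ▸ hw'))
    have ih' := ih S t (E \ S w) (fun w' hw' => by
        intro x hx
        exact mem_sdiff.2 ⟨hS w' (mem_insert_of_mem hw') hx,
          fun hx' => (disjoint_left.1 (hdw w' hw')) hx' hx⟩)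
      (fun w' hw' => ht w' (mem_insert_of_mem hw'))
      (fun w₁ h₁ w₂ h₂ => hd w₁ (mem_insert_of_mem h₁) w₂ (mem_insert_of_mem h₂))
      (fun w' hw' => hπt w' (mem_insert_of_mem hw'))
    have hE : E = S w ∪ (E \ S w) := (union_sdiff_of_subset hSw).symm
    have hfub := hF α p (S w) (E \ S w)
      (fun F => if ∀ w' ∈ insert w N', F ∩ S w' ≠ t w' then (1 : ℝ) else 0)
      disjoint_sdiff
    rw [← hE] at hfub
    rw [hfub]
    set c : ℝ := (1 - π) ^ N'.card with hc
    have hc0 : 0 ≤ c := pow_nonneg (by linarith) _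
    have hin : ∀ F₁ ⊆ S w, Ex p (E \ S w) (fun F₂ =>
        if ∀ w' ∈ insert w N', (F₁ ∪ F₂) ∩ S w' ≠ t w' then (1 : ℝ) else 0) ≤
          c - if F₁ = t w then c else 0 := by
      intro F₁ hF₁
      by_cases h1 : F₁ = t w
      · rw [if_pos h1, sub_self]
        refine (Ex_mono hp0 hp1 (E \ S w) (g := fun _ => 0) fun F₂ hF₂ => ?_).trans
          (hT α p (E \ S w) 0).le
        rw [if_neg]
        intro h2
        apply h2 w hwI
        rw [← h1]
        ext x
        simp only [mem_inter, mem_union]
        constructor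
        · rintro ⟨h3 | h3, h4⟩
          · exact h3
          · exact absurd h4 (mem_sdiff.1 (hF₂ h3)).2
        · intro h3
          exact ⟨Or.inl h3, hF₁ h3⟩
      · rw [if_neg h1, sub_zero]
        refine (Ex_mono hp0 hp1 (E \ S w) fun F₂ hF₂ => ?_).trans ih'
        by_cases h2 : ∀ w' ∈ insert w N', (F₁ ∪ F₂) ∩ S w' ≠ t w'
        · rw [if_pos h2, if_pos]
          intro w' hw' h3
          apply h2 w' (mem_insert_of_mem hw')
          rw [← h3]
          ext x
          simp only [mem_inter, mem_union]
          constructor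
          · rintro ⟨h4 | h4, h5⟩
            · exact absurd h5 (disjoint_left.1 (hdw w' hw') (hF₁ h4))
            · exact ⟨h4, h5⟩
          · rintro ⟨h4, h5⟩
            exact ⟨Or.inr h4, h5⟩
        · rw [if_neg h2]
          split_ifs
          · exact zero_le_one
          · exact le_rfl
    refine (Ex_mono hp0 hp1 (S w) hin).trans ?_
    rw [Ex_one hT (S w) (t w) htw c, card_insert_of_notMem hw, pow_succ]
    have h5 := mul_le_mul_of_nonneg_right (hπt w hwI) hc0
    rw [← hc]
    linarith

end Pool.Agent.Y918.GX
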